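import Pool.Agent.TH231.K6.Quad

set_option autoImplicit false

open MeasureTheory ProbabilityTheory MvPolynomial

namespace Pool.Agent.TH231.K6

variable {a b c : ℕ}

/-- the Gram entries `G_{kl}` as polynomials. -/
noncomputable def PG (t : Fin c × Fin b → Fin a → ℝ) (k l : Fin c) : MvPolynomial (Fin a) ℝ :=
  ∑ j : Fin b, L (t (k, j)) * L (t (l, j))

noncomputable def S2 (t : Fin c × Fin b → Fin a → ℝ) : MvPolynomial (Fin a) ℝ :=
  ∑ k, ∑ l, PG t k l * PG t k l

theorem S2_eq (t : Fin c × Fin b → Fin a → ℝ) : S2 t = ∑ k : Fin c, ∑ l : Fin c, ∑ j : Fin b, ∑ j' : Fin b,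
    L (t (k, j)) * (L (t (l, j)) * (L (t (k, j')) * L (t (l, j')))) := by
  unfold S2 PG
  refine Finset.sum_congr rfl fun k _ => Finset.sum_congr rfl fun l _ => ?_
  rw [Finset.sum_mul_sum]
  refine Finset.sum_congr rfl fun j _ => Finset.sum_congr rfl fun j' _ => ?_
  ring

theorem cov_eq (t : Fin c × Fin b → Fin a → ℝ) :
    EE (PQ t * S2 t) = H1 t * EE (S2 t) + 2 * ∑ α, ∑ k : Fin c, ∑ l : Fin c, ∑ j : Fin b, ∑ j' : Fin b,
      (dot (t α) (t (k, j)) * dot (t α) (t (l, j)) * dot (t (k, j')) (t (l, j'))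
      + dot (t α) (t (k, j')) * dot (t α) (t (l, j')) * dot (t (k, j)) (t (l, j))
      + (dot (t α) (t (k, j)) * dot (t α) (t (k, j')) * dot (t (l, j)) (t (l, j'))
      + dot (t α) (t (k, j)) * dot (t α) (t (l, j')) * dot (t (l, j)) (t (k, j'))
      + dot (t α) (t (l, j)) * dot (t α) (t (k, j')) * dot (t (k, j)) (t (l, j'))
      + dot (t α) (t (l, j)) * dot (t α) (t (l, j')) * dot (t (k, j)) (t (k, j')))) := by
  rw [S2_eq]
  unfold PQ H1
  rw [Finset.sum_mul, EE_sum, Finset.sum_mul, Finset.mul_sum, ← Finset.sum_add_distrib]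
  refine Finset.sum_congr rfl fun α _ => ?_
  simp only [Finset.mul_sum, EE_sum]
  simp only [← Finset.sum_add_distrib]
  refine Finset.sum_congr rfl fun k _ => Finset.sum_congr rfl fun l _ =>
    Finset.sum_congr rfl fun j _ => Finset.sum_congr rfl fun j' _ => ?_
  rw [mul_assoc, E6, E4]
  ring

theorem cov_nonneg (t : Fin c × Fin b → Fin a → ℝ) : H1 t * EE (S2 t) ≤ EE (PQ t * S2 t) := by
  rw [cov_eq]
  have key : ∀ α, 0 ≤ ∑ k : Fin c, ∑ l : Fin c, ∑ j : Fin b, ∑ j' : Fin b,
      (dot (t α) (t (k, j)) * dot (t α) (t (l, j)) * dot (t (k, j')) (t (l, j'))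
      + dot (t α) (t (k, j')) * dot (t α) (t (l, j')) * dot (t (k, j)) (t (l, j))
      + (dot (t α) (t (k, j)) * dot (t α) (t (k, j')) * dot (t (l, j)) (t (l, j'))
      + dot (t α) (t (k, j)) * dot (t α) (t (l, j')) * dot (t (l, j)) (t (k, j'))
      + dot (t α) (t (l, j)) * dot (t α) (t (k, j')) * dot (t (k, j)) (t (l, j'))
      + dot (t α) (t (l, j)) * dot (t α) (t (l, j')) * dot (t (k, j)) (t (k, j')))) := by
    intro α
    set g : Fin c → Fin b → ℝ := fun k j => dot (t α) (t (k, j)) with hg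
    have h1 : ∑ k : Fin c, ∑ l : Fin c, ∑ j : Fin b, ∑ j' : Fin b,
        g k j * g l j * dot (t (k, j')) (t (l, j')) =
        ∑ j : Fin b, ∑ j' : Fin b, ∑ i, (∑ k, g k j * t (k, j') i) ^ 2 := by
      simp only [dot, Finset.mul_sum]
      calc _ = ∑ k : Fin c, ∑ j : Fin b, ∑ l : Fin c, ∑ j' : Fin b, ∑ i,
            g k j * g l j * (t (k, j') i * t (l, j') i) := by
              refine Finset.sum_congr rfl fun k _ => Finset.sum_comm
        _ = ∑ j : Fin b, ∑ k : Fin c, ∑ l : Fin c, ∑ j' : Fin b, ∑ i,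
            g k j * g l j * (t (k, j') i * t (l, j') i) := Finset.sum_comm
        _ = ∑ j : Fin b, ∑ k : Fin c, ∑ j' : Fin b, ∑ l : Fin c, ∑ i,
            g k j * g l j * (t (k, j') i * t (l, j') i) := by
              refine Finset.sum_congr rfl fun j _ => Finset.sum_congr rfl fun k _ => Finset.sum_comm
        _ = ∑ j : Fin b, ∑ j' : Fin b, ∑ k : Fin c, ∑ l : Fin c, ∑ i,
            g k j * g l j * (t (k, j') i * t (l, j') i) := by
              refine Finset.sum_congr rfl fun j _ => Finset.sum_comm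
        _ = ∑ j : Fin b, ∑ j' : Fin b, ∑ k : Fin c, ∑ i, ∑ l : Fin c,
            g k j * g l j * (t (k, j') i * t (l, j') i) := by
              refine Finset.sum_congr rfl fun j _ => Finset.sum_congr rfl fun j' _ =>
                Finset.sum_congr rfl fun k _ => Finset.sum_comm
        _ = ∑ j : Fin b, ∑ j' : Fin b, ∑ i, ∑ k : Fin c, ∑ l : Fin c,
            g k j * g l j * (t (k, j') i * t (l, j') i) := by
              refine Finset.sum_congr rfl fun j _ => Finset.sum_congr rfl fun j' _ => Finset.sum_comm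
        _ = _ := by
              refine Finset.sum_congr rfl fun j _ => Finset.sum_congr rfl fun j' _ =>
                Finset.sum_congr rfl fun i _ => ?_
              rw [sq, Finset.sum_mul_sum]
              refine Finset.sum_congr rfl fun k _ =>
                Finset.sum_congr rfl fun l _ => ?_
              ring
    have h1' : ∑ k : Fin c, ∑ l : Fin c, ∑ j : Fin b, ∑ j' : Fin b,
        g k j' * g l j' * dot (t (k, j)) (t (l, j)) =
        ∑ k : Fin c, ∑ l : Fin c, ∑ j : Fin b, ∑ j' : Fin b,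
        g k j * g l j * dot (t (k, j')) (t (l, j')) := by
      refine Finset.sum_congr rfl fun k _ => Finset.sum_congr rfl fun l _ => Finset.sum_comm
    have h2 : ∀ k l : Fin c, ∑ j : Fin b, ∑ j' : Fin b,
        (g k j * g k j' * dot (t (l, j)) (t (l, j'))
      + g k j * g l j' * dot (t (l, j)) (t (k, j'))
      + g l j * g k j' * dot (t (k, j)) (t (l, j'))
      + g l j * g l j' * dot (t (k, j)) (t (k, j'))) =
        ∑ i, (∑ j, (g k j * t (l, j) i + g l j * t (k, j) i)) ^ 2 := by
      intro k l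
      simp only [dot, Finset.mul_sum, ← Finset.sum_add_distrib]
      calc _ = ∑ j : Fin b, ∑ i, ∑ j' : Fin b, (g k j * g k j' * (t (l, j) i * t (l, j') i)
            + g k j * g l j' * (t (l, j) i * t (k, j') i)
            + g l j * g k j' * (t (k, j) i * t (l, j') i)
            + g l j * g l j' * (t (k, j) i * t (k, j') i)) := by
              refine Finset.sum_congr rfl fun j _ => Finset.sum_comm
        _ = ∑ i, ∑ j : Fin b, ∑ j' : Fin b, (g k j * g k j' * (t (l, j) i * t (l, j') i)
            + g k j * g l j' * (t (l, j) i * t (k, j') i)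
            + g l j * g k j' * (t (k, j) i * t (l, j') i)
            + g l j * g l j' * (t (k, j) i * t (k, j') i)) := Finset.sum_comm
        _ = _ := by
              refine Finset.sum_congr rfl fun i _ => ?_
              rw [sq, Finset.sum_mul_sum]
              refine Finset.sum_congr rfl fun j _ =>
                Finset.sum_congr rfl fun j' _ => ?_
              ring
    have h3 : ∑ k : Fin c, ∑ l : Fin c, ∑ j : Fin b, ∑ j' : Fin b,
      (g k j * g l j * dot (t (k, j')) (t (l, j'))
      + g k j' * g l j' * dot (t (k, j)) (t (l, j))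
      + (g k j * g k j' * dot (t (l, j)) (t (l, j'))
      + g k j * g l j' * dot (t (l, j)) (t (k, j'))
      + g l j * g k j' * dot (t (k, j)) (t (l, j'))
      + g l j * g l j' * dot (t (k, j)) (t (k, j')))) =
      ∑ k : Fin c, ∑ l : Fin c, ∑ j : Fin b, ∑ j' : Fin b,
        g k j * g l j * dot (t (k, j')) (t (l, j')) +
      ∑ k : Fin c, ∑ l : Fin c, ∑ j : Fin b, ∑ j' : Fin b,
        g k j' * g l j' * dot (t (k, j)) (t (l, j)) +
      ∑ k : Fin c, ∑ l : Fin c, ∑ j : Fin b, ∑ j' : Fin b,
        (g k j * g k j' * dot (t (l, j)) (t (l, j'))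
      + g k j * g l j' * dot (t (l, j)) (t (k, j'))
      + g l j * g k j' * dot (t (k, j)) (t (l, j'))
      + g l j * g l j' * dot (t (k, j)) (t (k, j'))) := by
      simp only [← Finset.sum_add_distrib]
    show 0 ≤ ∑ k : Fin c, ∑ l : Fin c, ∑ j : Fin b, ∑ j' : Fin b,
      (g k j * g l j * dot (t (k, j')) (t (l, j'))
      + g k j' * g l j' * dot (t (k, j)) (t (l, j))
      + (g k j * g k j' * dot (t (l, j)) (t (l, j'))
      + g k j * g l j' * dot (t (l, j)) (t (k, j'))
      + g l j * g k j' * dot (t (k, j)) (t (l, j'))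
      + g l j * g l j' * dot (t (k, j)) (t (k, j'))))
    rw [h3, h1', h1]
    simp only [h2]
    positivity
  have := Finset.sum_nonneg (fun α (_ : α ∈ Finset.univ) => key α)
  linarith

end Pool.Agent.TH231.K6
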