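import Pool.Agent.TH231.K6.Stein

set_option autoImplicit false

open MeasureTheory ProbabilityTheory MvPolynomial

namespace Pool.Agent.TH231.K6

variable {n : ℕ}

/-- inner product. -/
def dot (u x : Fin n → ℝ) : ℝ := ∑ i, u i * x i

noncomputable def L (u : Fin n → ℝ) : MvPolynomial (Fin n) ℝ := ∑ i, C (u i) * X i

theorem eval_L (u x : Fin n → ℝ) : eval x (L u) = dot u x := by
  simp [L, dot]

noncomputable def D (u : Fin n → ℝ) (P : MvPolynomial (Fin n) ℝ) : MvPolynomial (Fin n) ℝ :=
  ∑ i, C (u i) * pderiv i P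

theorem stL (u : Fin n → ℝ) (P : MvPolynomial (Fin n) ℝ) : EE (L u * P) = EE (D u P) := by
  unfold L D
  rw [Finset.sum_mul, EE_sum, EE_sum]
  refine Finset.sum_congr rfl fun i _ => ?_
  rw [mul_assoc, EE_smul, EE_smul, stein]

theorem pd_L (w : Fin n → ℝ) (i : Fin n) : pderiv i (L w) = C (w i) := by
  unfold L
  rw [map_sum, Finset.sum_eq_single i]
  · simp
  · intro j _ hj
    simp [pderiv_X, Pi.single_apply, hj]
  · simp

theorem D_L (u w : Fin n → ℝ) : D u (L w) = C (dot u w) := by
  unfold D dot
  simp only [pd_L]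
  rw [map_sum]
  refine Finset.sum_congr rfl fun i _ => ?_
  rw [C_mul]

theorem D_mul (u : Fin n → ℝ) (P Q : MvPolynomial (Fin n) ℝ) :
    D u (P * Q) = D u P * Q + P * D u Q := by
  unfold D
  rw [Finset.sum_mul, Finset.mul_sum, ← Finset.sum_add_distrib]
  refine Finset.sum_congr rfl fun i _ => ?_
  rw [Derivation.leibniz]
  simp only [smul_eq_mul]
  ring

theorem E2 (u v : Fin n → ℝ) : EE (L u * L v) = dot u v := by
  rw [stL, D_L, EE_C]

theorem E4 (a b c d : Fin n → ℝ) : EE (L a * (L b * (L c * L d))) =
    dot a b * dot c d + dot a c * dot b d + dot a d * dot b c := by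
  rw [stL, D_mul, D_mul, D_L, D_L, D_L]
  have : C (dot a b) * (L c * L d) + L b * (C (dot a c) * L d + L c * C (dot a d)) =
    C (dot a b) * (L c * L d) + C (dot a c) * (L b * L d) + C (dot a d) * (L b * L c) := by ring
  rw [this, EE_add, EE_add, EE_smul, EE_smul, EE_smul, E2, E2, E2]

theorem E6 (a b c d e f : Fin n → ℝ) : EE (L a * (L b * (L c * (L d * (L e * L f))))) =
    dot a b * (dot c d * dot e f + dot c e * dot d f + dot c f * dot d e) +
    dot a c * (dot b d * dot e f + dot b e * dot d f + dot b f * dot d e) +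
    dot a d * (dot b c * dot e f + dot b e * dot c f + dot b f * dot c e) +
    dot a e * (dot b c * dot d f + dot b d * dot c f + dot b f * dot c d) +
    dot a f * (dot b c * dot d e + dot b d * dot c e + dot b e * dot c d) := by
  rw [stL, D_mul, D_mul, D_mul, D_mul, D_L, D_L, D_L, D_L, D_L]
  have : C (dot a b) * (L c * (L d * (L e * L f))) + L b * (C (dot a c) * (L d * (L e * L f)) +
      L c * (C (dot a d) * (L e * L f) + L d * (C (dot a e) * L f + L e * C (dot a f)))) =
    C (dot a b) * (L c * (L d * (L e * L f))) + C (dot a c) * (L b * (L d * (L e * L f))) +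
    C (dot a d) * (L b * (L c * (L e * L f))) + C (dot a e) * (L b * (L c * (L d * L f))) +
    C (dot a f) * (L b * (L c * (L d * L e))) := by ring
  rw [this]
  simp only [EE_add, EE_smul, E4]

theorem dI2 (a b : Fin n → ℝ) : ∫ x, dot a x * dot b x ∂gam n = dot a b := by
  rw [← E2]; unfold EE; simp only [map_mul, eval_L]

theorem dI4 (a b c d : Fin n → ℝ) : ∫ x, dot a x * dot b x * (dot c x * dot d x) ∂gam n =
    dot a b * dot c d + dot a c * dot b d + dot a d * dot b c := by
  rw [← E4]; unfold EE; simp only [map_mul, eval_L, mul_assoc]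

theorem dI6 (a b c d e f : Fin n → ℝ) :
    ∫ x, dot a x * dot b x * (dot c x * dot d x) * (dot e x * dot f x) ∂gam n =
    dot a b * (dot c d * dot e f + dot c e * dot d f + dot c f * dot d e) +
    dot a c * (dot b d * dot e f + dot b e * dot d f + dot b f * dot d e) +
    dot a d * (dot b c * dot e f + dot b e * dot c f + dot b f * dot c e) +
    dot a e * (dot b c * dot d f + dot b d * dot c f + dot b f * dot c d) +
    dot a f * (dot b c * dot d e + dot b d * dot c e + dot b e * dot c d) := by
  rw [← E6]; unfold EE; simp only [map_mul, eval_L, mul_assoc]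

theorem in2 (a b : Fin n → ℝ) : Integrable (fun x => dot a x * dot b x) (gam n) := by
  have := int_poly (L a * L b)
  simpa only [map_mul, eval_L] using this

theorem in4 (a b c d : Fin n → ℝ) :
    Integrable (fun x => dot a x * dot b x * (dot c x * dot d x)) (gam n) := by
  have := int_poly (L a * L b * (L c * L d))
  simpa only [map_mul, eval_L] using this

theorem in6 (a b c d e f : Fin n → ℝ) :
    Integrable (fun x => dot a x * dot b x * (dot c x * dot d x) * (dot e x * dot f x)) (gam n) := by
  have := int_poly (L a * L b * (L c * L d) * (L e * L f))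
  simpa only [map_mul, eval_L] using this

theorem linrec (u : Fin n → ℝ) (r : ℕ) :
    EE (L u ^ (r + 2)) = (r + 1) * dot u u * EE (L u ^ r) := by
  have h : ∀ r : ℕ, D u (L u ^ r) = C (r * dot u u) * L u ^ (r - 1) := by
    intro r
    induction r with
    | zero => simp [D]
    | succ r ih =>
      rw [pow_succ, D_mul, ih, D_L]
      rcases r with _ | r
      · simp
      · simp only [Nat.add_sub_cancel]
        push_cast
        rw [pow_succ]
        simp only [map_add, map_mul, map_one]
        ring
  rw [pow_succ', stL, h, EE_smul]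
  simp only [Nat.add_sub_cancel]
  congr 2
  push_cast
  ring

theorem lin_pow (u : Fin n → ℝ) (r : ℕ) : ∫ x, dot u x ^ r ∂gam n = EE (L u ^ r) := by
  unfold EE; simp only [map_pow, eval_L]

theorem lin2 (u : Fin n → ℝ) : ∫ x, dot u x ^ 2 ∂gam n = dot u u := by
  rw [lin_pow, linrec u 0, pow_zero]
  have := EE_C (n := n) 1
  rw [C_1] at this
  rw [this]; norm_num

theorem lin4 (u : Fin n → ℝ) : ∫ x, dot u x ^ 4 ∂gam n = 3 * dot u u ^ 2 := by
  rw [lin_pow, linrec u 2, linrec u 0, pow_zero]
  have := EE_C (n := n) 1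
  rw [C_1] at this
  rw [this]; norm_num; ring

theorem lin6 (u : Fin n → ℝ) : ∫ x, dot u x ^ 6 ∂gam n = 15 * dot u u ^ 3 := by
  rw [lin_pow, linrec u 4, linrec u 2, linrec u 0, pow_zero]
  have := EE_C (n := n) 1
  rw [C_1] at this
  rw [this]; norm_num; ring

theorem lin3 (u : Fin n → ℝ) : ∫ x, dot u x ^ 3 ∂gam n = 0 := by
  rw [lin_pow, linrec u 1, pow_one]
  have : EE (L u) = 0 := by
    have h := stL u (1 : MvPolynomial (Fin n) ℝ)
    rw [mul_one] at h
    rw [h]
    simp [D, EE]
  rw [this, mul_zero]

end Pool.Agent.TH231.K6
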