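import Pool.Agent.TH231.K6.Iss

set_option autoImplicit false

open MeasureTheory ProbabilityTheory MvPolynomial

namespace Pool.Agent.TH231.K6

variable {n : ℕ} {ι : Type} [Fintype ι]

theorem dot_comm (u v : Fin n → ℝ) : dot u v = dot v u := by
  unfold dot; exact Finset.sum_congr rfl fun i _ => mul_comm _ _

noncomputable def PQ (u : ι → Fin n → ℝ) : MvPolynomial (Fin n) ℝ := ∑ k, L (u k) * L (u k)

noncomputable def H1 (u : ι → Fin n → ℝ) : ℝ := ∑ k, dot (u k) (u k)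
noncomputable def H2 (u : ι → Fin n → ℝ) : ℝ := ∑ k, ∑ l, dot (u k) (u l) ^ 2
noncomputable def H3 (u : ι → Fin n → ℝ) : ℝ :=
  ∑ k, ∑ l, ∑ m, dot (u k) (u l) * dot (u l) (u m) * dot (u m) (u k)

theorem eval_PQ (u : ι → Fin n → ℝ) (x : Fin n → ℝ) :
    eval x (PQ u) = ∑ k, dot (u k) x * dot (u k) x := by
  simp [PQ, eval_L]

theorem m1 (u : ι → Fin n → ℝ) : EE (PQ u) = H1 u := by
  unfold PQ H1
  rw [EE_sum]
  simp only [E2]

theorem m2 (u : ι → Fin n → ℝ) : EE (PQ u * PQ u) = H1 u ^ 2 + 2 * H2 u := by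
  unfold PQ H1 H2
  rw [Finset.sum_mul_sum, EE_sum]
  simp only [EE_sum, mul_assoc, E4]
  rw [sq, Finset.sum_mul_sum, Finset.mul_sum, ← Finset.sum_add_distrib]
  refine Finset.sum_congr rfl fun k _ => ?_
  rw [Finset.mul_sum, ← Finset.sum_add_distrib]
  refine Finset.sum_congr rfl fun l _ => ?_
  ring

theorem m3 (u : ι → Fin n → ℝ) :
    EE (PQ u * (PQ u * PQ u)) = H1 u ^ 3 + 6 * (H1 u * H2 u) + 8 * H3 u := by
  have e1 : EE (PQ u * (PQ u * PQ u)) = ∑ k, ∑ l, ∑ m,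
      (dot (u k) (u k) * dot (u l) (u l) * dot (u m) (u m)
        + 2 * (dot (u k) (u k) * dot (u l) (u m) ^ 2)
        + 2 * (dot (u l) (u l) * dot (u k) (u m) ^ 2)
        + 2 * (dot (u m) (u m) * dot (u k) (u l) ^ 2)
        + 8 * (dot (u k) (u l) * dot (u l) (u m) * dot (u m) (u k))) := by
    unfold PQ
    rw [Finset.sum_mul_sum, Finset.sum_mul, EE_sum]
    refine Finset.sum_congr rfl fun k _ => ?_
    rw [Finset.mul_sum, EE_sum]
    refine Finset.sum_congr rfl fun l _ => ?_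
    rw [Finset.mul_sum, EE_sum]
    refine Finset.sum_congr rfl fun m _ => ?_
    simp only [mul_assoc, E6]
    rw [dot_comm (u m) (u k)]
    ring
  rw [e1]
  simp only [Finset.sum_add_distrib]
  have a1 : ∑ k, ∑ l, ∑ m, dot (u k) (u k) * dot (u l) (u l) * dot (u m) (u m) = H1 u ^ 3 := by
    unfold H1
    rw [pow_succ, sq, Finset.sum_mul_sum, Finset.sum_mul]
    refine Finset.sum_congr rfl fun k _ => ?_
    rw [Finset.sum_mul]
    refine Finset.sum_congr rfl fun l _ => ?_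
    rw [Finset.mul_sum]
  have a2 : ∑ k, ∑ l, ∑ m, 2 * (dot (u k) (u k) * dot (u l) (u m) ^ 2) = 2 * (H1 u * H2 u) := by
    unfold H1 H2
    rw [Finset.sum_mul, Finset.mul_sum]
    refine Finset.sum_congr rfl fun k _ => ?_
    simp only [Finset.mul_sum]
  have a3 : ∑ k, ∑ l, ∑ m, 2 * (dot (u l) (u l) * dot (u k) (u m) ^ 2) = 2 * (H1 u * H2 u) := by
    rw [Finset.sum_comm, ← a2]
  have a4 : ∑ k, ∑ l, ∑ m, 2 * (dot (u m) (u m) * dot (u k) (u l) ^ 2) = 2 * (H1 u * H2 u) := by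
    rw [← a3]
    refine Finset.sum_congr rfl fun k _ => ?_
    rw [Finset.sum_comm]
  have a5 : ∑ k, ∑ l, ∑ m, 8 * (dot (u k) (u l) * dot (u l) (u m) * dot (u m) (u k)) = 8 * H3 u := by
    unfold H3
    simp only [Finset.mul_sum]
  rw [a1, a2, a3, a4, a5]
  ring

theorem H3_eq (u : ι → Fin n → ℝ) :
    H3 u = ∑ k, ∑ i, (∑ l, dot (u k) (u l) * u l i) ^ 2 := by
  unfold H3
  refine Finset.sum_congr rfl fun k _ => ?_
  simp only [sq, Finset.sum_mul_sum]
  symm
  rw [Finset.sum_comm]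
  refine Finset.sum_congr rfl fun l _ => ?_
  rw [Finset.sum_comm]
  refine Finset.sum_congr rfl fun m _ => ?_
  have : dot (u l) (u m) = ∑ i, u l i * u m i := rfl
  rw [dot_comm (u m) (u k), this, Finset.mul_sum, Finset.sum_mul]
  refine Finset.sum_congr rfl fun i _ => ?_
  ring

theorem H3_nonneg (u : ι → Fin n → ℝ) : 0 ≤ H3 u := by
  rw [H3_eq]; positivity

theorem H3_pos (u : ι → Fin n → ℝ) (h : ∃ k i, u k i ≠ 0) : 0 < H3 u := by
  rcases (H3_nonneg u).lt_or_eq with h0 | h0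
  · exact h0
  exfalso
  rw [H3_eq] at h0
  have h1 : ∀ k i, ∑ l, dot (u k) (u l) * u l i = 0 := by
    intro k i
    have h2 := (Finset.sum_eq_zero_iff_of_nonneg (fun k _ => by positivity)).mp h0.symm k
      (Finset.mem_univ k)
    have h3 := (Finset.sum_eq_zero_iff_of_nonneg (fun i _ => by positivity)).mp h2 i
      (Finset.mem_univ i)
    exact pow_eq_zero_iff (two_ne_zero) |>.mp h3
  have h4 : ∀ k, ∑ l, dot (u k) (u l) ^ 2 = 0 := by
    intro k
    have : ∑ l, dot (u k) (u l) ^ 2 = ∑ i, u k i * ∑ l, dot (u k) (u l) * u l i := by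
      simp only [Finset.mul_sum]
      rw [Finset.sum_comm]
      refine Finset.sum_congr rfl fun l _ => ?_
      rw [sq]
      nth_rewrite 2 [dot]
      rw [Finset.mul_sum]
      refine Finset.sum_congr rfl fun i _ => ?_
      ring
    rw [this]
    simp [h1]
  obtain ⟨k, i, hk⟩ := h
  have h5 := (Finset.sum_eq_zero_iff_of_nonneg (fun l _ => by positivity)).mp (h4 k) k
    (Finset.mem_univ k)
  have h6 : dot (u k) (u k) = 0 := pow_eq_zero_iff (two_ne_zero) |>.mp h5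
  unfold dot at h6
  have h7 := (Finset.sum_eq_zero_iff_of_nonneg (fun i _ => mul_self_nonneg _)).mp h6 i
    (Finset.mem_univ i)
  exact hk (mul_self_eq_zero.mp h7)

end Pool.Agent.TH231.K6
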