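import Mathlib

set_option autoImplicit false

open MeasureTheory ProbabilityTheory MvPolynomial

namespace Pool.Agent.TH231.K6

/-- standard Gaussian vector. -/
noncomputable abbrev gam (n : ℕ) : Measure (Fin n → ℝ) := Measure.pi (fun _ => gaussianReal 0 1)

noncomputable def mm (k : ℕ) : ℝ := ∫ x : ℝ, x ^ k ∂gaussianReal 0 1

theorem int1 (k : ℕ) : Integrable (fun x : ℝ => x ^ k) (gaussianReal 0 1) := by
  have h := (memLp_id_gaussianReal (μ := 0) (v := 1) (k : NNReal))
  have h2 := MemLp.integrable_norm_pow' (f := (id : ℝ → ℝ)) (p := k) (by exact_mod_cast h)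
  refine h2.mono' (by fun_prop) ?_
  filter_upwards with x
  simp

theorem pdf_deriv (s : ℝ) : HasDerivAt (gaussianPDFReal 0 1) (-s * gaussianPDFReal 0 1 s) s := by
  have h0 : gaussianPDFReal 0 1 = fun s : ℝ => (√(2 * Real.pi))⁻¹ * Real.exp (-s ^ 2 / 2) := by
    ext x
    simp [gaussianPDFReal]
  rw [h0]
  have h1 : HasDerivAt (fun s : ℝ => -s ^ 2 / 2) (-s) s := by
    have := ((hasDerivAt_pow 2 s).neg).div_const 2
    refine this.congr_deriv ?_
    norm_num
    ring
  have h2 := (h1.exp).const_mul ((√(2 * Real.pi))⁻¹)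
  refine h2.congr_deriv ?_
  ring

theorem int1' (k : ℕ) : Integrable (fun s : ℝ => gaussianPDFReal 0 1 s * s ^ k) := by
  have h := int1 k
  rw [gaussianReal_of_var_ne_zero _ one_ne_zero] at h
  rw [integrable_withDensity_iff_integrable_smul₀' (by fun_prop)
    (by filter_upwards with x; exact gaussianPDF_lt_top)] at h
  refine h.congr ?_
  filter_upwards with x
  simp [gaussianPDF, ENNReal.toReal_ofReal, gaussianPDFReal_nonneg]

theorem mm_succ (k : ℕ) : mm (k + 2) = (k + 1) * mm k := by
  have hd : ∀ s : ℝ, HasDerivAt (fun s => gaussianPDFReal 0 1 s * s ^ (k + 1))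
      ((k + 1) * (gaussianPDFReal 0 1 s * s ^ k) - gaussianPDFReal 0 1 s * s ^ (k + 2)) s := by
    intro s
    refine ((pdf_deriv s).mul (hasDerivAt_pow (k + 1) s)).congr_deriv ?_
    simp only [Nat.add_sub_cancel]
    push_cast
    ring
  have h0 := integral_eq_zero_of_hasDerivAt_of_integrable hd
    (((int1' k).const_mul _).sub (int1' (k + 2))) (int1' (k + 1))
  rw [integral_sub ((int1' k).const_mul _) (int1' (k + 2)), integral_const_mul] at h0
  unfold mm
  rw [integral_gaussianReal_eq_integral_smul one_ne_zero,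
    integral_gaussianReal_eq_integral_smul one_ne_zero]
  simp only [smul_eq_mul]
  linarith

theorem mm_zero : mm 0 = 1 := by simp [mm]
theorem mm_one : mm 1 = 0 := by
  have hd : ∀ s : ℝ, HasDerivAt (fun s => gaussianPDFReal 0 1 s)
      (-(gaussianPDFReal 0 1 s * s ^ 1)) s := by
    intro s
    refine (pdf_deriv s).congr_deriv ?_
    ring
  have h0 := integral_eq_zero_of_hasDerivAt_of_integrable hd (int1' 1).neg
    (by simpa using int1' 0)
  rw [integral_neg, neg_eq_zero] at h0
  unfold mm
  rw [integral_gaussianReal_eq_integral_smul one_ne_zero]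
  simpa using h0

variable {n : ℕ}

theorem eval_mono (s : Fin n →₀ ℕ) (c : ℝ) (x : Fin n → ℝ) :
    eval x (monomial s c) = c * ∏ i, x i ^ s i := by
  rw [eval_monomial, Finsupp.prod_fintype]
  intro i; simp

theorem int_mono (s : Fin n →₀ ℕ) (c : ℝ) :
    Integrable (fun x => eval x (monomial s c)) (gam n) := by
  simp only [eval_mono]
  refine Integrable.const_mul ?_ c
  exact Integrable.fintype_prod (f := fun i (x : ℝ) => x ^ s i) (fun i => int1 (s i))

theorem int_poly (P : MvPolynomial (Fin n) ℝ) : Integrable (fun x => eval x P) (gam n) := by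
  induction P using MvPolynomial.induction_on' with
  | monomial u a => exact int_mono u a
  | add p q hp hq =>
    simp only [map_add]
    exact hp.add hq

/-- Gaussian expectation of a polynomial. -/
noncomputable def EE (P : MvPolynomial (Fin n) ℝ) : ℝ := ∫ x, eval x P ∂gam n

theorem EE_add (P Q : MvPolynomial (Fin n) ℝ) : EE (P + Q) = EE P + EE Q := by
  unfold EE
  simp only [map_add]
  exact integral_add (int_poly P) (int_poly Q)

theorem EE_smul (c : ℝ) (P : MvPolynomial (Fin n) ℝ) : EE (C c * P) = c * EE P := by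
  unfold EE
  simp only [map_mul, eval_C]
  exact integral_const_mul _ _

theorem EE_sum {ι : Type*} (s : Finset ι) (P : ι → MvPolynomial (Fin n) ℝ) :
    EE (∑ i ∈ s, P i) = ∑ i ∈ s, EE (P i) := by
  unfold EE
  simp only [map_sum]
  exact integral_finsetSum _ (fun i _ => int_poly (P i))

theorem EE_C (c : ℝ) : EE (C c : MvPolynomial (Fin n) ℝ) = c := by
  unfold EE; simp

theorem EE_mono (s : Fin n →₀ ℕ) (c : ℝ) : EE (monomial s c) = c * ∏ i, mm (s i) := by
  unfold EE
  simp only [eval_mono]
  rw [integral_const_mul]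
  congr 1
  exact integral_fintype_prod_eq_prod (fun i (x : ℝ) => x ^ s i)

theorem stein_mono (i : Fin n) (s : Fin n →₀ ℕ) (c : ℝ) :
    EE (X i * monomial s c) = EE (pderiv i (monomial s c)) := by
  rw [pderiv_monomial, X, monomial_mul, one_mul, EE_mono, EE_mono, mul_assoc]
  congr 1
  rw [← Finset.mul_prod_erase _ _ (Finset.mem_univ i), ← Finset.mul_prod_erase _ _ (Finset.mem_univ i)]
  have h1 : ∀ j ∈ Finset.univ.erase i, mm ((Finsupp.single i 1 + s : Fin n →₀ ℕ) j) = mm (s j) := by
    intro j hj
    have : i ≠ j := fun h => (Finset.mem_erase.mp hj).1 h.symm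
    simp [Finsupp.single_apply, this]
  have h2 : ∀ j ∈ Finset.univ.erase i, mm ((s - Finsupp.single i 1 : Fin n →₀ ℕ) j) = mm (s j) := by
    intro j hj
    have : i ≠ j := fun h => (Finset.mem_erase.mp hj).1 h.symm
    simp [Finsupp.single_apply, this]
  rw [Finset.prod_congr rfl h1, Finset.prod_congr rfl h2, ← mul_assoc]
  congr 1
  simp only [Finsupp.coe_add, Finsupp.coe_tsub, Pi.add_apply, Pi.sub_apply, Finsupp.single_eq_same]
  rcases Nat.eq_zero_or_pos (s i) with h | h
  · rw [h]; simp [mm_one]
  · obtain ⟨k, hk⟩ := Nat.exists_eq_succ_of_ne_zero h.ne'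
    rw [hk]
    have : 1 + k.succ = k + 2 := by omega
    rw [this, mm_succ]
    simp

theorem stein (i : Fin n) (P : MvPolynomial (Fin n) ℝ) : EE (X i * P) = EE (pderiv i P) := by
  induction P using MvPolynomial.induction_on' with
  | monomial u a => exact stein_mono i u a
  | add p q hp hq =>
    rw [mul_add, EE_add, map_add, EE_add, hp, hq]

end Pool.Agent.TH231.K6
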